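import Pool.Agent.helper27.PC.Stmt

/-!
# PC project, module SD: positivity for super-decreasing types
-/

namespace Pool.Agent.helper27.PC

open Module Polynomial Finset

/-! ### finite sets of natural numbers -/

theorem SD_minsum (T : Finset ℕ) : ∑ i ∈ range T.card, i ≤ ∑ x ∈ T, x := by
  induction T using Finset.induction_on_max with
  | empty => simp
  | insert a s ha ih =>
    have hn : a ∉ s := fun h => lt_irrefl _ (ha a h)
    rw [card_insert_of_notMem hn, sum_range_succ, sum_insert hn]
    have h1 : s.card ≤ a := by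
      have : s ⊆ range a := fun x hx => mem_range.2 (ha x hx)
      simpa using card_le_card this
    omega

theorem SD_minsum2 {T : Finset ℕ} {h : ℕ} (hh : h ∉ T) :
    ∑ i ∈ range T.card, i + T.card ≤ ∑ x ∈ T, x + h := by
  have h1 := SD_minsum (insert h T)
  rw [card_insert_of_notMem hh, sum_range_succ, sum_insert hh] at h1
  omega

/-- a downward closed finite set is an initial segment -/
theorem SD_down {I : Finset ℕ} (hI : ∀ i ∈ I, ∀ j < i, j ∈ I) (i : ℕ) : i ∈ I ↔ i < I.card := by
  constructor
  · intro h
    have : range (i + 1) ⊆ I := by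
      intro j hj
      rcases Nat.lt_succ_iff_lt_or_eq.1 (mem_range.1 hj) with h1 | h1
      · exact hI i h j h1
      · rw [h1]; exact h
    have := card_le_card this
    rw [card_range] at this
    omega
  · intro h
    by_contra hi
    have : I ⊆ range i := by
      intro j hj
      rw [mem_range]
      by_contra hij
      rcases Nat.eq_or_lt_of_not_lt hij with h1 | h1
      · exact hi (h1 ▸ hj)
      · exact hi (hI j hj i h1)
    have := card_le_card this
    rw [card_range] at this
    omega

/-- a set closed under subtraction of `a` is determined by the numbers of its elements in the classes -/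
theorem SD_core {a : ℕ} (ha : 1 ≤ a) {T : Finset ℕ} (hT : ∀ p ∈ T, a ≤ p → p - a ∈ T) (p : ℕ) :
    p ∈ T ↔ p / a < (T.filter fun q => q % a = p % a).card := by
  set I := (T.filter fun q => q % a = p % a).image (· / a) with hI
  have hcard : I.card = (T.filter fun q => q % a = p % a).card := by
    apply card_image_of_injOn
    intro x hx y hy hxy
    simp only [coe_filter, Set.mem_ofPred_eq] at hx hy
    simp only at hxy
    have h1 := Nat.div_add_mod x a
    have h2 := Nat.div_add_mod y a
    rw [hx.2, hxy] at h1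
    rw [hy.2] at h2
    omega
  have hmem : ∀ i, i ∈ I ↔ a * i + p % a ∈ T := by
    intro i
    rw [hI, mem_image]
    constructor
    · rintro ⟨x, hx, rfl⟩
      rw [mem_filter] at hx
      rw [← hx.2, Nat.div_add_mod]
      exact hx.1
    · intro h
      refine ⟨_, mem_filter.2 ⟨h, ?_⟩, ?_⟩
      · rw [Nat.mul_add_mod, Nat.mod_mod]
      · rw [Nat.mul_add_div (by omega), Nat.div_eq_of_lt (Nat.mod_lt _ (by omega)), add_zero]
  have hdown : ∀ i ∈ I, ∀ j < i, j ∈ I := by
    have hstep : ∀ i, i + 1 ∈ I → i ∈ I := by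
      intro i h
      rw [hmem] at h ⊢
      have := hT _ h (by rw [mul_add]; omega)
      have e : a * (i + 1) + p % a - a = a * i + p % a := by
        rw [mul_add, mul_one]; omega
      rwa [e] at this
    intro i
    induction i with
    | zero => intro _ j hj; omega
    | succ i ih =>
      intro h j hj
      have h1 := hstep i h
      rcases Nat.lt_succ_iff_lt_or_eq.1 hj with h2 | h2
      · exact ih h1 j h2
      · rw [h2]; exact h1
  rw [← hcard, ← SD_down hdown, hmem, Nat.div_add_mod]

/-! ### states -/

/-- positions of the beads in one component -/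
def SD_pos (b : Bool) (S : St) : Finset ℕ := (S.filter fun x => x.1 = b).image Prod.snd

theorem SD_mem_pos {b : Bool} {S : St} {p : ℕ} : p ∈ SD_pos b S ↔ (b, p) ∈ S := by
  unfold SD_pos
  rw [mem_image]
  constructor
  · rintro ⟨⟨c, q⟩, hx, rfl⟩
    rw [mem_filter] at hx
    obtain ⟨h1, h2⟩ := hx
    simp only at h2
    subst h2
    exact h1
  · intro h
    exact ⟨(b, p), mem_filter.2 ⟨h, rfl⟩, rfl⟩

theorem SD_pos_ext {S S' : St} (h : ∀ b, SD_pos b S = SD_pos b S') : S = S' := by
  ext ⟨b, p⟩
  rw [← SD_mem_pos, h, SD_mem_pos]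

theorem SD_pos_move {a : ℕ} {S : St} {l : Lab} (b : Bool) :
    SD_pos b (move a S l) =
      if b = l.1 then insert (l.2 + a) ((SD_pos b S).erase l.2) else SD_pos b S := by
  ext p
  rw [SD_mem_pos]
  unfold move up
  rw [mem_insert, mem_erase]
  split_ifs with h
  · subst h
    rw [mem_insert, mem_erase, SD_mem_pos]
    simp [Prod.ext_iff]
  · rw [SD_mem_pos]
    simp [Prod.ext_iff, h]

/-- states with `m` beads in each component and `k` boxes -/
def SD_Good (m k : ℕ) (S : St) : Prop :=
  (∀ b, (SD_pos b S).card = m) ∧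
    ∑ p ∈ SD_pos true S, p + ∑ p ∈ SD_pos false S, p = 2 * ∑ i ∈ range m, i + k

theorem SD_good_vac (m : ℕ) : SD_Good m 0 (vac m) := by
  have h : ∀ b, SD_pos b (vac m) = range m := by
    intro b
    ext p
    rw [SD_mem_pos]
    unfold vac
    simp
  refine ⟨fun b => by rw [h]; simp, ?_⟩
  rw [h, h]; omega

theorem SD_add {a : ℕ} {S : St} {l : Lab} (hl : l ∈ addable a S) :
    l.2 ∈ SD_pos l.1 S ∧ l.2 + a ∉ SD_pos l.1 S := by
  unfold addable at hl
  rw [mem_filter] at hl
  exact ⟨SD_mem_pos.2 hl.1, fun h => hl.2 (SD_mem_pos.1 h)⟩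

/-- sums over the positions after a move -/
theorem SD_sum_move {M : Type*} [AddCommGroup M] {T : Finset ℕ} {p q : ℕ} (f : ℕ → M) (hp : p ∈ T)
    (hq : q ∉ T) : ∑ x ∈ insert q (T.erase p), f x = ∑ x ∈ T, f x + f q - f p := by
  rw [sum_insert (fun h => hq (mem_of_mem_erase h)), ← add_sum_erase T f hp]
  abel

theorem SD_good_move {m k a : ℕ} {S : St} {l : Lab} (hS : SD_Good m k S) (hl : l ∈ addable a S) :
    SD_Good m (k + a) (move a S l) := by
  obtain ⟨h1, h2⟩ := SD_add hl
  constructor
  · intro b
    rw [SD_pos_move]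
    split_ifs with h
    · rw [h, card_insert_of_notMem (fun h => h2 (mem_of_mem_erase h)), card_erase_of_mem h1, hS.1]
      have : 0 < (SD_pos l.1 S).card := card_pos.2 ⟨_, h1⟩
      rw [hS.1] at this
      omega
    · exact hS.1 b
  · have hz : (∑ p ∈ SD_pos true (move a S l), (p : ℤ)) + ∑ p ∈ SD_pos false (move a S l), (p : ℤ) =
        ∑ p ∈ SD_pos true S, (p : ℤ) + ∑ p ∈ SD_pos false S, (p : ℤ) + a := by
      obtain ⟨b, p⟩ := l
      simp only at h1 h2
      cases b
      · rw [SD_pos_move true, SD_pos_move false, if_neg (by simp), if_pos rfl,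
          SD_sum_move (fun x : ℕ => (x : ℤ)) h1 h2]
        push_cast; ring
      · rw [SD_pos_move false, SD_pos_move true, if_pos rfl, if_neg (by simp),
          SD_sum_move (fun x : ℕ => (x : ℤ)) h1 h2]
        push_cast; ring
    have h3 := hS.2
    have hz' : ((∑ p ∈ SD_pos true (move a S l), p + ∑ p ∈ SD_pos false (move a S l), p : ℕ) : ℤ) =
        ((∑ p ∈ SD_pos true S, p + ∑ p ∈ SD_pos false S, p + a : ℕ) : ℤ) := by
      push_cast; exact hz
    have := Int.natCast_inj.1 hz'
    omega

theorem SD_good_hole {m k : ℕ} {S : St} (hS : SD_Good m k S) {b : Bool} {h : ℕ}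
    (hh : h ∉ SD_pos b S) : m ≤ k + h := by
  have h1 := SD_minsum2 hh
  have h2 := SD_minsum (SD_pos (!b) S)
  have h3 := hS.2
  rw [hS.1] at h1 h2
  cases b <;> simp only [Bool.not_true, Bool.not_false] at h2 <;> omega

theorem SD_good_core {m k a : ℕ} (hk : k < a) {S : St} (hS : SD_Good m k S) (b : Bool) :
    ∀ p ∈ SD_pos b S, a ≤ p → p - a ∈ SD_pos b S := by
  intro p hp hap
  by_contra hn
  have h1 := SD_minsum (insert (p - a) ((SD_pos b S).erase p))
  have h2 := SD_minsum (SD_pos (!b) S)
  have h3 := hS.2
  have h4 := add_sum_erase (SD_pos b S) (fun x => x) hp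
  have h5 : 0 < (SD_pos b S).card := card_pos.2 ⟨_, hp⟩
  rw [card_insert_of_notMem (fun h => hn (mem_of_mem_erase h)), card_erase_of_mem hp,
    Nat.sub_add_cancel h5, sum_insert (fun h => hn (mem_of_mem_erase h)), hS.1] at h1
  rw [hS.1] at h2
  cases b <;> simp only [Bool.not_true, Bool.not_false] at h2 <;> omega

/-- numbers of beads in the residue classes -/
def SD_nb (a : ℕ) (S : St) (b : Bool) (r : ℕ) : ℕ := ((SD_pos b S).filter fun q => q % a = r).card

theorem SD_nb_move {a : ℕ} {S : St} {l : Lab} (hl : l ∈ addable a S) (b : Bool) (r : ℕ) :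
    SD_nb a (move a S l) b r = SD_nb a S b r := by
  obtain ⟨h1, h2⟩ := SD_add hl
  unfold SD_nb
  rw [SD_pos_move]
  split_ifs with h
  · subst h
    rw [filter_insert, filter_erase]
    have e : (l.2 + a) % a = l.2 % a := Nat.add_mod_right _ _
    rw [e]
    split_ifs with h3
    · have h4 : l.2 ∈ (SD_pos l.1 S).filter fun q => q % a = r := mem_filter.2 ⟨h1, h3⟩
      have h5 : l.2 + a ∉ (((SD_pos l.1 S).filter fun q => q % a = r).erase l.2) :=
        fun h => h2 (mem_filter.1 (mem_of_mem_erase h)).1
      rw [card_insert_of_notMem h5, card_erase_of_mem h4]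
      have : 0 < ((SD_pos l.1 S).filter fun q => q % a = r).card := card_pos.2 ⟨_, h4⟩
      omega
    · rw [erase_eq_of_notMem]
      exact fun h => h3 (mem_filter.1 h).2
  · rfl

theorem SD_nb_inj {m k a : ℕ} (hk : k < a) {M M' : St} (hM : SD_Good m k M) (hM' : SD_Good m k M')
    (h : ∀ b r, SD_nb a M b r = SD_nb a M' b r) : M = M' := by
  apply SD_pos_ext
  intro b
  ext p
  rw [SD_core (by omega) (SD_good_core hk hM b), SD_core (by omega) (SD_good_core hk hM' b)]
  have := h b (p % a)
  unfold SD_nb at this
  rw [this]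

/-! ### exponents -/

/-- the exponent of one step -/
def SD_ex (m k a : ℕ) (l : Lab) : ℕ := if l.1 then k + a + l.2 + 1 - m else k + a + l.2 - m

/-- the potential -/
def SD_F (m k : ℕ) (S : St) : ℤ :=
  ∑ p ∈ SD_pos true S, ((p : ℤ) ^ 2 + 2 * p) + ∑ p ∈ SD_pos false S, (p : ℤ) ^ 2 + k ^ 2 - 2 * m * k

theorem SD_F_move {m k a : ℕ} {S : St} {l : Lab} (hS : SD_Good m k S) (hl : l ∈ addable a S) :
    (2 * a * SD_ex m k a l : ℤ) = SD_F m (k + a) (move a S l) - SD_F m k S := by
  obtain ⟨h1, h2⟩ := SD_add hl
  have h3 := SD_good_hole hS h2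
  obtain ⟨b, p⟩ := l
  simp only at h1 h2 h3
  unfold SD_F SD_ex
  cases b
  · rw [SD_pos_move true, SD_pos_move false, if_neg (by simp), if_pos rfl,
      SD_sum_move (fun x : ℕ => (x : ℤ) ^ 2) h1 h2, if_neg (by simp)]
    have e : ((k + a + p - m : ℕ) : ℤ) = k + a + p - m := by
      rw [Nat.cast_sub (by omega)]; push_cast; ring
    rw [e]; push_cast; ring
  · rw [SD_pos_move false, SD_pos_move true, if_pos rfl, if_pos rfl, if_neg (by simp),
      SD_sum_move (fun x : ℕ => (x : ℤ) ^ 2 + 2 * x) h1 h2]
    have e : ((k + a + p + 1 - m : ℕ) : ℤ) = k + a + p + 1 - m := by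
      rw [Nat.cast_sub (by omega)]; push_cast; ring
    rw [e]; push_cast; ring

theorem SD_wq (m k a : ℕ) (l : Lab) :
    wq m k a l = C (if l.1 then 1 else -1) * X ^ SD_ex m k a l := by
  unfold wq SD_ex
  split_ifs with h
  · simp
  · simp

/-! ### sums of monomials with the same exponent -/

theorem SD_mono_sum {ι : Type*} (s : Finset ι) (f : ι → ℤ[X]) (c : ι → ℤ) (e : ι → ℕ)
    (hf : ∀ i ∈ s, f i = C (c i) * X ^ e i)
    (he : ∀ i ∈ s, ∀ j ∈ s, c i ≠ 0 → c j ≠ 0 → e i = e j) :
    ∃ (c' : ℤ) (e' : ℕ), ∑ i ∈ s, f i = C c' * X ^ e' ∧ (c' ≠ 0 → ∃ i ∈ s, c i ≠ 0 ∧ e' = e i) := by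
  by_cases h : ∃ i ∈ s, c i ≠ 0
  · obtain ⟨i, hi, hci⟩ := h
    refine ⟨∑ j ∈ s, c j, e i, ?_, fun _ => ⟨i, hi, hci, rfl⟩⟩
    rw [map_sum, sum_mul]
    apply sum_congr rfl
    intro j hj
    rw [hf j hj]
    by_cases hcj : c j = 0
    · rw [hcj]; simp
    · rw [he j hj i hi hcj hci]
  · push Not at h
    refine ⟨0, 0, ?_, fun h' => absurd rfl h'⟩
    rw [map_zero, zero_mul]
    apply sum_eq_zero
    intro j hj
    rw [hf j hj, h j hj]; simp

/-! ### the operators `fock` -/

theorem SD_fock_add (m : ℕ) (l : List ℕ) : ∀ (k : ℕ) (u u' : St →₀ ℤ[X]),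
    fock m k l (u + u') = fock m k l u + fock m k l u' := by
  induction l with
  | nil => intro k u u'; rfl
  | cons a l ih => intro k u u'; simp only [fock]; rw [map_add, ih]

theorem SD_fock_smul (m : ℕ) (l : List ℕ) : ∀ (k : ℕ) (c : ℤ[X]) (u : St →₀ ℤ[X]),
    fock m k l (c • u) = c • fock m k l u := by
  induction l with
  | nil => intro k c u; rfl
  | cons a l ih => intro k c u; simp only [fock]; rw [map_smul, ih]

/-- `fock` as a linear map -/
noncomputable def SD_fL (m k : ℕ) (l : List ℕ) : (St →₀ ℤ[X]) →ₗ[ℤ[X]] (St →₀ ℤ[X]) where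
  toFun := fock m k l
  map_add' := SD_fock_add m l k
  map_smul' := SD_fock_smul m l k

theorem SD_fock_append (m : ℕ) (l l' : List ℕ) : ∀ (k : ℕ) (u : St →₀ ℤ[X]),
    fock m k (l ++ l') u = fock m (k + l.sum) l' (fock m k l u) := by
  induction l with
  | nil => intro k u; simp [fock]
  | cons a l ih =>
    intro k u
    simp only [List.cons_append, fock, List.sum_cons]
    rw [ih, add_assoc]

theorem SD_Rib_single (w : Lab → ℤ[X]) (a : ℕ) (S : St) :
    Rib w a (Finsupp.single S 1) =
      ∑ l ∈ addable a S, ((-1) ^ cnt S l a * w l) • Finsupp.single (move a S l) (1 : ℤ[X]) := by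
  unfold Rib
  rw [Finsupp.linearCombination_single, one_smul]
  apply sum_congr rfl
  intro l _
  rw [Finsupp.smul_single, smul_eq_mul, mul_one]

/-- the entries for one group of equal parts, starting from one state -/
theorem SD_path (m a : ℕ) (ha : 1 ≤ a) : ∀ (j k : ℕ) (M S : St), SD_Good m k M →
    ∃ (c : ℤ) (e : ℕ), fock m k (List.replicate j a) (Finsupp.single M 1) S = C c * X ^ e ∧
      (c ≠ 0 → SD_Good m (k + j * a) S ∧ (∀ b r, SD_nb a S b r = SD_nb a M b r) ∧
        (2 * a * e : ℤ) = SD_F m (k + j * a) S - SD_F m k M) := by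
  intro j
  induction j with
  | zero =>
    intro k M S hM
    simp only [List.replicate_zero, fock]
    by_cases h : M = S
    · subst h
      refine ⟨1, 0, by simp, fun _ => ⟨by simpa using hM, fun _ _ => rfl, by simp⟩⟩
    · refine ⟨0, 0, ?_, fun h' => absurd rfl h'⟩
      rw [Finsupp.single_eq_of_ne (by tauto)]
      simp
  | succ j ih =>
    intro k M S hM
    rw [List.replicate_succ]
    simp only [fock]
    rw [SD_Rib_single]
    have e1 : fock m (k + a) (List.replicate j a) (∑ l ∈ addable a M,
          ((-1) ^ cnt M l a * wq m k a l) • Finsupp.single (move a M l) (1 : ℤ[X])) S =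
        ∑ l ∈ addable a M, ((-1) ^ cnt M l a * wq m k a l) *
          fock m (k + a) (List.replicate j a) (Finsupp.single (move a M l) 1) S := by
      have := map_sum (SD_fL m (k + a) (List.replicate j a)) (fun l =>
        ((-1) ^ cnt M l a * wq m k a l) • Finsupp.single (move a M l) (1 : ℤ[X])) (addable a M)
      simp only [SD_fL, LinearMap.coe_mk, AddHom.coe_mk] at this
      rw [this, Finsupp.finsetSum_apply]
      apply sum_congr rfl
      intro l _
      rw [SD_fock_smul, Finsupp.smul_apply, smul_eq_mul]
    rw [e1]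
    have h2 : ∀ l : Lab, ∃ (c : ℤ) (e : ℕ), l ∈ addable a M →
        fock m (k + a) (List.replicate j a) (Finsupp.single (move a M l) 1) S = C c * X ^ e ∧
      (c ≠ 0 → SD_Good m (k + a + j * a) S ∧ (∀ b r, SD_nb a S b r = SD_nb a (move a M l) b r) ∧
        (2 * a * e : ℤ) = SD_F m (k + a + j * a) S - SD_F m (k + a) (move a M l)) := by
      intro l
      by_cases hl : l ∈ addable a M
      · obtain ⟨c, e, h⟩ := ih (k + a) (move a M l) S (SD_good_move hM hl)
        exact ⟨c, e, fun _ => h⟩
      · exact ⟨0, 0, fun h => absurd h hl⟩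
    choose c e h2 using h2
    have hk : k + (j + 1) * a = k + a + j * a := by ring
    have h3 : ∀ l ∈ addable a M, c l ≠ 0 →
        (2 * a * (SD_ex m k a l + e l : ℕ) : ℤ) = SD_F m (k + (j + 1) * a) S - SD_F m k M := by
      intro l hl hc
      have h4 := ((h2 l hl).2 hc).2.2
      have h5 := SD_F_move hM hl
      rw [hk]
      push_cast at h4 h5 ⊢
      linarith
    obtain ⟨c', e', h6, h7⟩ := SD_mono_sum (addable a M)
      (fun l => ((-1) ^ cnt M l a * wq m k a l) *
          fock m (k + a) (List.replicate j a) (Finsupp.single (move a M l) 1) S)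
      (fun l => (-1) ^ cnt M l a * (if l.1 then 1 else -1) * c l) (fun l => SD_ex m k a l + e l)
      (by
        intro l hl
        rw [(h2 l hl).1, SD_wq]
        simp only [map_mul, map_pow, map_neg, map_one]
        ring)
      (by
        intro i hi i' hi' hc hc'
        have h8 := h3 i hi (right_ne_zero_of_mul hc)
        have h9 := h3 i' hi' (right_ne_zero_of_mul hc')
        rw [← h9] at h8
        have h10 : (2 * (a : ℤ)) ≠ 0 := by positivity
        have := mul_left_cancel₀ h10 h8
        exact_mod_cast this)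
    refine ⟨c', e', h6, ?_⟩
    intro hc'
    obtain ⟨l, hl, hc, he⟩ := h7 hc'
    have hcl := right_ne_zero_of_mul hc
    obtain ⟨h8, h9, _⟩ := (h2 l hl).2 hcl
    refine ⟨by rw [hk]; exact h8, fun b r => by rw [h9, SD_nb_move hl], ?_⟩
    rw [he]
    exact h3 l hl hcl

/-- one group of equal parts -/
theorem SD_group {m a : ℕ} (ha : 1 ≤ a) (j k : ℕ) (hk : k < a) (u : St →₀ ℤ[X])
    (hu : ∀ S, u S ≠ 0 → SD_Good m k S) (hmono : ∀ S, ∃ (c : ℤ) (e : ℕ), u S = C c * X ^ e) :
    (∀ S, fock m k (List.replicate j a) u S ≠ 0 → SD_Good m (k + j * a) S) ∧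
      ∀ S, ∃ (c : ℤ) (e : ℕ), fock m k (List.replicate j a) u S = C c * X ^ e := by
  have e1 : ∀ S, fock m k (List.replicate j a) u S =
      ∑ M ∈ u.support, u M * fock m k (List.replicate j a) (Finsupp.single M 1) S := by
    intro S
    have h1 : u = ∑ M ∈ u.support, u M • Finsupp.single M (1 : ℤ[X]) := by
      conv_lhs => rw [← Finsupp.sum_single u]
      unfold Finsupp.sum
      apply sum_congr rfl
      intro M _
      rw [Finsupp.smul_single, smul_eq_mul, mul_one]
    have := map_sum (SD_fL m k (List.replicate j a)) (fun M => u M • Finsupp.single M (1 : ℤ[X]))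
      u.support
    rw [← h1] at this
    simp only [SD_fL, LinearMap.coe_mk, AddHom.coe_mk] at this
    rw [this, Finsupp.finsetSum_apply]
    apply sum_congr rfl
    intro M _
    rw [SD_fock_smul, Finsupp.smul_apply, smul_eq_mul]
  have hG : ∀ M ∈ u.support, SD_Good m k M := fun M hM => hu M (Finsupp.mem_support_iff.1 hM)
  constructor
  · intro S hS
    rw [e1] at hS
    obtain ⟨M, hM, h2⟩ := exists_ne_zero_of_sum_ne_zero hS
    obtain ⟨c, e, h3, h4⟩ := SD_path m a ha j k M S (hG M hM)
    apply (h4 _).1
    rintro rfl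
    apply h2
    rw [h3]; simp
  · intro S
    rw [e1]
    by_cases h : ∃ M ∈ u.support, fock m k (List.replicate j a) (Finsupp.single M 1) S ≠ 0
    · obtain ⟨M, hM, h2⟩ := h
      rw [sum_eq_single_of_mem M hM]
      · obtain ⟨c, e, h3, -⟩ := SD_path m a ha j k M S (hG M hM)
        obtain ⟨c', e', h4⟩ := hmono M
        refine ⟨c' * c, e' + e, ?_⟩
        rw [h3, h4, C_mul, pow_add]; ring
      · intro M' hM' hne
        by_contra h5
        have h6 := right_ne_zero_of_mul h5
        apply hne
        obtain ⟨c, e, h3, h4⟩ := SD_path m a ha j k M S (hG M hM)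
        obtain ⟨c', e', h3', h4'⟩ := SD_path m a ha j k M' S (hG M' hM')
        have hc : c ≠ 0 := by
          rintro rfl
          apply h2; rw [h3]; simp
        have hc' : c' ≠ 0 := by
          rintro rfl
          apply h6; rw [h3']; simp
        apply SD_nb_inj hk (hG M' hM') (hG M hM)
        intro b r
        rw [← (h4 hc).2.1, ← (h4' hc').2.1]
    · push Not at h
      refine ⟨0, 0, ?_⟩
      rw [map_zero, zero_mul]
      apply sum_eq_zero
      intro M hM
      rw [h M hM, mul_zero]

/-- splitting off the largest parts -/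
theorem SD_split (l : List ℕ) (hs : l.Pairwise (· ≤ ·)) (a : ℕ) (ha : ∀ x ∈ l, x ≤ a) :
    l = l.filter (· < a) ++ List.replicate (l.count a) a := by
  induction l with
  | nil => simp
  | cons x l ih =>
    have hs' := (List.pairwise_cons.1 hs).2
    have hx := (List.pairwise_cons.1 hs).1
    have ih' := ih hs' (fun y hy => ha y (List.mem_cons_of_mem _ hy))
    rcases Nat.lt_or_ge x a with h | h
    · have h1 : (x :: l).filter (· < a) = x :: l.filter (· < a) := by
        rw [List.filter_cons_of_pos]; simpa using h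
      rw [h1, List.count_cons_of_ne (by omega)]
      rw [List.cons_append, ← ih']
    · have hxa : x = a := le_antisymm (ha x List.mem_cons_self) h
      subst hxa
      have h2 : ∀ y ∈ x :: l, y = x := by
        intro y hy
        rcases List.mem_cons.1 hy with h3 | h3
        · exact h3
        · exact le_antisymm (ha y hy) (hx y h3)
      have h4 : (x :: l).filter (· < x) = [] := by
        rw [List.filter_eq_nil_iff]
        intro y hy
        rw [h2 y hy]; simp
      rw [h4, List.nil_append]
      have h5 := List.eq_replicate_of_mem h2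
      have h6 : (x :: l).count x = (x :: l).length := by
        rw [List.count_eq_length]
        intro y hy
        exact (h2 y hy).symm
      rw [h6]
      exact h5

/-- the entries of the vector are signed monomials -/
theorem SD_vec (m : ℕ) : ∀ (N : ℕ) (l : List ℕ), l.length = N → (∀ a ∈ l, 1 ≤ a) →
    l.Pairwise (· ≤ ·) → SuperDecreasing l →
    (∀ S, vec m l S ≠ 0 → SD_Good m l.sum S) ∧ ∀ S, ∃ (c : ℤ) (e : ℕ), vec m l S = C c * X ^ e := by
  intro N
  induction N using Nat.strong_induction_on with
  | _ N ih =>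
    intro l hN h1 hs hsd
    by_cases hl : l = []
    · subst hl
      unfold vec
      simp only [fock, List.sum_nil]
      constructor
      · intro S hS
        by_cases h : vac m = S
        · rw [← h]; exact SD_good_vac m
        · rw [Finsupp.single_eq_of_ne (by tauto)] at hS
          exact absurd rfl hS
      · intro S
        by_cases h : vac m = S
        · exact ⟨1, 0, by rw [h]; simp⟩
        · exact ⟨0, 0, by rw [Finsupp.single_eq_of_ne (by tauto)]; simp⟩
    · set a := l.getLast hl with ha
      have hal : a ∈ l := List.getLast_mem hl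
      have hmax : ∀ x ∈ l, x ≤ a := by
        intro x hx
        have h2 : l = l.dropLast ++ [a] := (List.dropLast_append_getLast hl).symm
        rw [h2] at hs hx
        rw [List.pairwise_append] at hs
        rcases List.mem_append.1 hx with h3 | h3
        · exact hs.2.2 x h3 a (by simp)
        · simp only [List.mem_singleton] at h3
          omega
      have h2 := SD_split l hs a hmax
      set R := l.filter (· < a) with hR
      set j := l.count a with hj
      have hRsum : R.sum < a := hsd a hal
      have hRl : R.length < N := by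
        rw [← hN]
        conv_rhs => rw [h2]
        rw [List.length_append, List.length_replicate]
        have : 0 < j := List.count_pos_iff.2 hal
        omega
      have hsub : ∀ x ∈ R, x ∈ l ∧ x < a := by
        intro x hx
        rw [hR, List.mem_filter] at hx
        exact ⟨hx.1, by simpa using hx.2⟩
      have hRsd : SuperDecreasing R := by
        intro x hx
        have h3 := hsd x (hsub x hx).1
        have h4 : R.filter (· < x) = l.filter (· < x) := by
          rw [hR, List.filter_filter]
          apply List.filter_congr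
          intro y _
          have := (hsub x hx).2
          by_cases hy : y < x
          · simp [hy, show y < a by omega]
          · simp [hy]
        rw [h4]; exact h3
      obtain ⟨h5, h6⟩ := ih R.length hRl R rfl (fun x hx => h1 x (hsub x hx).1)
        (hs.sublist List.filter_sublist) hRsd
      obtain ⟨h7, h8⟩ := SD_group (m := m) (h1 a hal) j R.sum hRsum (vec m R) h5 h6
      have h9 : vec m l = fock m R.sum (List.replicate j a) (vec m R) := by
        unfold vec
        conv_lhs => rw [h2]
        rw [SD_fock_append, zero_add]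
      rw [h9]
      refine ⟨?_, h8⟩
      have h10 : l.sum = R.sum + j * a := by
        conv_lhs => rw [h2]
        rw [List.sum_append, List.sum_replicate, smul_eq_mul]
      rw [h10]
      exact h7

/-- positivity for super-decreasing types -/
theorem SD : SD_stmt := by
  intro n l hl hsd k
  obtain ⟨-, h⟩ := SD_vec n l.length l rfl hl.1 hl.2.1 hsd
  unfold P Finsupp.sum
  rw [finsetSum_coeff]
  apply sum_nonneg
  intro S _
  obtain ⟨c, e, hce⟩ := h S
  simp only [hce]
  rw [mul_pow, ← C_pow, ← pow_mul, coeff_C_mul, coeff_X_pow]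
  split_ifs
  · rw [mul_one]; positivity
  · simp

end Pool.Agent.helper27.PC
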