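import Pool.Agent.helper64.PC.SpecE

/-!
# pc:TER
-/

set_option autoImplicit false

namespace Pool.Agent.PC

open Pool.Agent.PB

theorem TER_gate {G : Set Gate} {g : Gate} (hg : g ∈ G) : InCl G g.2 := by
  refine ⟨1, [(fun x => g.2 fun i => (fun y : Fin g.1 → Bool => y i) x)], ?_, le_rfl, Or.inl ?_⟩
  · exact Prog.step [] g (fun i => fun y : Fin g.1 → Bool => y i) Prog.nil hg fun i => Or.inr ⟨i, rfl⟩
  · exact List.mem_singleton.2 rfl

/-- Transfer of a property between `G` and `ter G`. -/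
theorem TER_tr (P : ∀ n : ℕ, BF n → Prop)
    (hP : ∀ (G : Set Gate) (n : ℕ) (f : BF n), InCl G f → (∀ g ∈ G, P g.1 g.2) → P n f)
    {G : Set Gate} (H : ∀ n, 1 ≤ n → ∀ f : BF n, InCl G f → InCl (ter G) f) :
    (∀ g ∈ ter G, P g.1 g.2) ↔ ∀ g ∈ G, P g.1 g.2 := by
  constructor
  · intro h g hg
    rcases Nat.eq_zero_or_pos g.1 with h0 | h0
    · exact h g ⟨by omega, TER_gate hg⟩
    · exact hP (ter G) g.1 g.2 (H g.1 h0 g.2 (TER_gate hg)) h
  · intro h g hg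
    exact hP G g.1 g.2 hg.2 h

theorem TER_gap (hPRP : PRP_stmt) {G : Set Gate} (H : ∀ n, 1 ≤ n → ∀ f : BF n, InCl G f → InCl (ter G) f) :
    Gap (ter G) ↔ Gap G := by
  have hS := TER_tr (fun n f => Star f) (fun G n f hf h => (hPRP G n f hf).2.2.2.2.2.2.1 h) H
  have hI : ∀ k, (∀ g ∈ ter G, Inter k g.2) ↔ ∀ g ∈ G, Inter k g.2 := fun k =>
    TER_tr (fun n f => Inter k f) (fun G n f hf h => (hPRP G n f hf).2.2.2.2.2.1 k h) H
  constructor
  · rintro ⟨k, hk, h1, h2⟩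
    exact ⟨k, hk, (hI k).1 h1, fun h => h2 (hS.2 h)⟩
  · rintro ⟨k, hk, h1, h2⟩
    exact ⟨k, hk, (hI k).2 h1, fun h => h2 (hS.1 h)⟩

theorem TER (hPRP : PRP_stmt) (hDUA : DUA_stmt) (hCLP : CLP_stmt) : TER_stmt := by
  have hD : ∀ G : Set Gate, dualB (ter G) = ter (dualB G) := by
    intro G
    ext g
    constructor
    · rintro ⟨h1, s, hs⟩
      refine ⟨h1, s, ?_⟩
      have h := (hDUA.2.2.2.1 G g.1 (dual g.2) s).2 hs
      rw [hDUA.1] at h
      exact h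
    · rintro ⟨h1, s, hs⟩
      refine ⟨h1, s, ?_⟩
      have h := (hDUA.2.2.2.1 G g.1 (dual g.2) s).1
      rw [hDUA.1] at h
      exact h hs
  refine ⟨hD, fun G H => ?_⟩
  have H' : ∀ n, 1 ≤ n → ∀ f : BF n, InCl (dualB G) f → InCl (ter (dualB G)) f := by
    intro n hn f ⟨s, hs⟩
    have h1 : InCl G (dual f) := by
      refine ⟨s, (hDUA.2.2.2.1 G n (dual f) s).1 ?_⟩
      rw [hDUA.1]
      exact hs
    obtain ⟨t, ht⟩ := H n hn (dual f) h1
    have h2 := (hDUA.2.2.2.1 (ter G) n (dual f) t).2 ht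
    rw [hDUA.1, hD] at h2
    exact ⟨t, h2⟩
  have hA := TER_tr (fun n f => Affine f) (fun G n f hf h => (hPRP G n f hf).1 h) H
  have hC := TER_tr (fun n f => Conj f) (fun G n f hf h => (hPRP G n f hf).2.1 h) H
  have hO := TER_tr (fun n f => Disj f) (fun G n f hf h => (hPRP G n f hf).2.2.1 h) H
  have hM := TER_tr (fun n f => Mono f) (fun G n f hf h => (hPRP G n f hf).2.2.2.1 h) H
  have hT : Trivial (ter G) ↔ Trivial G := by
    unfold Trivial
    rw [hA, hC, hO]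
  refine ⟨hT, ?_⟩
  unfold Weak
  rw [hT, hM, TER_gap hPRP H, hD, TER_gap hPRP H']

end Pool.Agent.PC
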